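import Pool.Agent.R906.QRat

/-!
# Strong and primarily strong relative Chow groups differ

There is a smooth, connected, properly stable toric stack `𝒳 = [U / G_m ^ 4]`, with `U` an open
subset of `𝔸 ^ 7`, whose good moduli space `X` is a separated (toric) scheme of dimension three,
and a primarily strong integral divisor `Z` on `𝒳` whose class in `A¹(𝒳) ⊗ ℚ` is not a linear
combination of classes of strong divisors.
-/

set_option autoImplicit false

open MvPolynomial Pool.Agent.R906

theorem Pool.Agent.Results.MP_696fc5_ag.StrongNotPrimarilyStrong.result (K : Type*) [Field K] :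
    ∃ (w : Fin 7 → Fin 4 → ℤ) (g : Fin 4 → MvPolynomial (Fin 7) K) (d : Fin 4 → Fin 4 → ℤ)
      (hg : ∀ i, g i ∈ weightedHomogeneousSubmodule K w (d i)),
      letI : GradedAlgebra (weightedHomogeneousSubmodule K w) := weightedGradedAlgebra K w
      Glues (weightedHomogeneousSubmodule K w) g ∧
      SeparatedModuli (weightedHomogeneousSubmodule K w) g d hg ∧
      HasTrivialOpen (weightedHomogeneousSubmodule K w) g ∧
      ∃ Z : IntegralSubstack (weightedHomogeneousSubmodule K w) g 1, Z.IsPrimarilyStrong ∧
        ∀ c : IntegralSubstack (weightedHomogeneousSubmodule K w) g 1 →₀ ℚ,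
          (∀ Y ∈ c.support, Y.IsStrong) → ¬ RatEquivZero (Finsupp.single Z 1 - c) := by
  refine ⟨wt, chart K, chartDeg, chart_mem, ex_glues, ex_separated, ex_trivialOpen, Z0 K,
    Z0_primarilyStrong, ?_⟩
  intro c hc
  apply not_ratEquivZero
  have : c = 0 := by
    ext Y
    by_contra hY
    exact not_strong Y (hc Y (Finsupp.mem_support_iff.mpr hY))
  rw [this, sub_zero]
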